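import Mathlib

namespace Pool.Agent.H.MP_35c8d5

open Filter Topology Set

variable {Z : Type} [NormedAddCommGroup Z] [NormedSpace ℝ Z]

theorem ulim {ι : Type} (U : Ultrafilter ι) (e : ι → Z →L[ℝ] ℝ) {R : ℝ} (R0 : 0 ≤ R)
    (h : ∀ᶠ i in U, ‖e i‖ ≤ R) :
    ∃ c : Z →L[ℝ] ℝ, ‖c‖ ≤ R ∧ ∀ v, Tendsto (fun i => e i v) U (𝓝 (c v)) := by
  have b : ∀ v, ∀ᶠ i in U, ‖e i v‖ ≤ R * ‖v‖ := fun v => h.mono fun i hi =>
    ((e i).le_opNorm v).trans (by gcongr)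
  have : ∀ v, ∃ c, Tendsto (fun i => e i v) U (𝓝 c) := fun v => by
    obtain ⟨c, -, hc⟩ := (isCompact_closedBall (0 : ℝ) (R * ‖v‖)).ultrafilter_le_nhds
      (U.map fun i => e i v) (by
        rw [le_principal_iff, Ultrafilter.coe_map, Filter.mem_map]
        exact (b v).mono fun i hi => by simpa using hi)
    exact ⟨c, hc⟩
  choose c hc using this
  have k : ∀ v, ‖c v‖ ≤ R * ‖v‖ := fun v => le_of_tendsto (hc v).norm (b v)
  exact ⟨LinearMap.mkContinuous ⟨⟨c, fun v w => tendsto_nhds_unique (hc _)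
    (by simpa using (hc v).add (hc w))⟩, fun t v => tendsto_nhds_unique (hc _)
    (by simpa using (hc v).const_mul t)⟩ R k, LinearMap.mkContinuous_norm_le _ R0 _, hc⟩

theorem smul {W : Set (Z →L[ℝ] ℝ)} {R : ℝ} (R0 : 0 ≤ R) (hR : ∀ w ∈ W, ‖w‖ ≤ R) {p : Z → ℝ}
    (p1 : ∀ z, ∀ w ∈ W, w z ≤ p z) (p2 : ∀ z η, 0 < η → ∃ w ∈ W, p z - η ≤ w z) (z : Z)
    (h : ∀ v ε, 0 < ε → ∃ η > 0, ∀ w ∈ W, ∀ w' ∈ W, p z - η ≤ w z → p z - η ≤ w' z →
      |w v - w' v| ≤ ε) :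
    ∃ f : Z →L[ℝ] ℝ, ∀ v, HasDerivAt (fun t : ℝ => p (z + t • v)) (f v) 0 := by
  choose w w1 w2 using fun n : ℕ => p2 z (1 / ((n : ℝ) + 1)) (by positivity)
  obtain ⟨f, f1, f2⟩ := ulim (hyperfilter ℕ) w R0 (.of_forall fun n => hR _ (w1 n))
  have t0 : Tendsto (fun n : ℕ => 1 / ((n : ℝ) + 1)) (hyperfilter ℕ) (𝓝 0) :=
    tendsto_one_div_add_atTop_nhds_zero_nat.mono_left Nat.hyperfilter_le_atTop
  have l : ∀ v, f v ≤ p v := fun v => le_of_tendsto' (f2 v) fun n => p1 _ _ (w1 n)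
  have fz : p z ≤ f z := by
    simpa using le_of_tendsto_of_tendsto' (tendsto_const_nhds.sub t0) (f2 z) w2
  refine ⟨f, fun v => hasDerivAt_iff_isLittleO_nhds_zero.2 (Asymptotics.isLittleO_iff.2 fun ε hε => ?_)⟩
  obtain ⟨η, η0, hη⟩ := h v (ε / 2) (by positivity)
  have k : ∀ a ∈ W, p z - η ≤ a z → |a v - f v| ≤ ε / 2 := fun a ha h =>
    le_of_tendsto ((tendsto_const_nhds.sub (f2 v)).abs)
      ((t0.eventually (ge_mem_nhds η0)).mono fun n hn => hη a ha _ (w1 n) h (by linarith [w2 n]))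
  have c : Tendsto (fun t : ℝ => |t| * (ε / 2 + 2 * (R * ‖v‖))) (𝓝 0) (𝓝 0) :=
    Continuous.tendsto' (by fun_prop) _ _ (by simp)
  filter_upwards [c.eventually (ge_mem_nhds η0)] with t ht
  rcases eq_or_ne t 0 with rfl | t0
  · simp
  obtain ⟨a, ha, h⟩ := p2 (z + t • v) (ε / 2 * |t|) (by positivity)
  have l1 := l (z + t • v)
  simp only [map_add, map_smul, smul_eq_mul] at l1 h
  have b : ∀ a : Z →L[ℝ] ℝ, ‖a‖ ≤ R → |t * a v| ≤ |t| * (R * ‖v‖) := fun a ha => by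
    rw [abs_mul]
    gcongr
    exact (a.le_opNorm v).trans (by gcongr)
  have b1 := abs_le.1 (b a (hR a ha))
  have b2 := abs_le.1 (b f f1)
  have b3 := k a ha (by linarith [b1.2, b2.1])
  have b4 : |t * (a v - f v)| ≤ |t| * (ε / 2) := by
    rw [abs_mul]
    gcongr
  have := p1 z a ha
  simp only [zero_add, zero_smul, add_zero, smul_eq_mul, Real.norm_eq_abs]
  exact abs_le.2 ⟨by nlinarith [abs_nonneg t], by linarith [(abs_le.1 b4).2]⟩

theorem exB [TopologicalSpace.SeparableSpace Z] :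
    ∃ B : (Z →L[ℝ] ℝ) →ₗ[ℝ] (Z →L[ℝ] ℝ) →ₗ[ℝ] ℝ, (∀ a b, B a b = B b a) ∧
      (∀ a b, |B a b| ≤ ‖a‖ * ‖b‖) ∧ (∀ a, 0 ≤ B a a) ∧
      (∀ v ε R, 0 < ε → ∃ θ > 0, ∀ a, ‖a‖ ≤ R → B a a ≤ θ → |a v| ≤ ε) ∧
      ∀ (ι : Type) (l : Filter ι) (a : ι → Z →L[ℝ] ℝ) (R : ℝ), (∀ᶠ i in l, ‖a i‖ ≤ R) →
        (∀ v, Tendsto (fun i => a i v) l (𝓝 0)) → Tendsto (fun i => B (a i) (a i)) l (𝓝 0) := by
  let d := TopologicalSpace.denseSeq Z
  let c : ℕ → ℝ := fun n => 1 / 2 / 2 ^ n / (1 + ‖d n‖) ^ 2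
  have c0 : ∀ n, 0 < c n := fun n => by positivity
  have k : ∀ (a b : Z →L[ℝ] ℝ) n, ‖c n * (a (d n) * b (d n))‖ ≤ ‖a‖ * ‖b‖ / 2 / 2 ^ n := fun a b n => by
    rw [norm_mul, norm_mul, Real.norm_of_nonneg (c0 n).le]
    refine (mul_le_mul_of_nonneg_left (mul_le_mul (a.le_opNorm _) (b.le_opNorm _) (norm_nonneg _)
      (by positivity)) (c0 n).le).trans ?_
    have : ‖d n‖ ^ 2 / (1 + ‖d n‖) ^ 2 ≤ 1 :=
      div_le_one_of_le₀ (by nlinarith [norm_nonneg (d n)]) (by positivity)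
    calc _ = ‖a‖ * ‖b‖ / 2 / 2 ^ n * (‖d n‖ ^ 2 / (1 + ‖d n‖) ^ 2) := by simp only [c]; ring
      _ ≤ _ := mul_le_of_le_one_right (by positivity) this
  have s : ∀ a b : Z →L[ℝ] ℝ, Summable fun n => c n * (a (d n) * b (d n)) := fun a b =>
    .of_norm_bounded (summable_geometric_two' _) (k a b)
  refine ⟨LinearMap.mk₂ ℝ (fun a b => ∑' n, c n * (a (d n) * b (d n))) (fun a a' b => ?_)
    (fun t a b => ?_) (fun a a' b => ?_) (fun t a b => ?_), fun a b => ?_, fun a b => ?_,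
    fun a => ?_, fun v ε R hε => ?_, fun ι l a R h1 h2 => ?_⟩
  · rw [← (s _ _).tsum_add (s _ _)]
    exact tsum_congr fun n => by simp only [_root_.add_apply]; ring
  · rw [smul_eq_mul, ← tsum_mul_left]
    exact tsum_congr fun n => by simp only [_root_.smul_apply, smul_eq_mul]; ring
  · rw [← (s _ _).tsum_add (s _ _)]
    exact tsum_congr fun n => by simp only [_root_.add_apply]; ring
  · rw [smul_eq_mul, ← tsum_mul_left]
    exact tsum_congr fun n => by simp only [_root_.smul_apply, smul_eq_mul]; ring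
  · exact tsum_congr fun n => by ring
  · exact tsum_of_norm_bounded (hasSum_geometric_two' _) (k a b)
  · exact tsum_nonneg fun n => mul_nonneg (c0 n).le (mul_self_nonneg _)
  · obtain ⟨n, hn⟩ := (TopologicalSpace.denseRange_denseSeq Z).exists_dist_lt v
      (show 0 < ε / 2 / (|R| + 1) by positivity)
    refine ⟨c n * (ε / 2) ^ 2, by positivity, fun a ha h => ?_⟩
    have h1 := ((s a a).le_tsum n fun m _ => mul_nonneg (c0 m).le (mul_self_nonneg _)).trans h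
    have h2 : |a (d n)| ≤ ε / 2 :=
      abs_le_of_sq_le_sq' (by nlinarith [le_of_mul_le_mul_left h1 (c0 n)]) (by positivity) |> abs_le.2
    have h3 := a.le_opNorm (v - d n)
    rw [map_sub, ← dist_eq_norm v, Real.norm_eq_abs] at h3
    rw [lt_div_iff₀ (by positivity)] at hn
    have h4 : ‖a‖ * dist v (d n) ≤ dist v (d n) * (|R| + 1) := by
      nlinarith [le_abs_self R, dist_nonneg (x := v) (y := d n)]
    have := abs_add_le (a v - a (d n)) (a (d n))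
    rw [sub_add_cancel] at this
    linarith
  · have := tendsto_tsum_of_dominated_convergence (𝓕 := l) (g := fun _ : ℕ => (0 : ℝ))
      (f := fun i n => c n * (a i (d n) * a i (d n))) (summable_geometric_two' (R * R))
      (fun n => by simpa using ((h2 (d n)).mul (h2 (d n))).const_mul (c n))
      (h1.mono fun i hi n => (k _ _ n).trans (by gcongr; exact (norm_nonneg _).trans hi))
    simpa using this

end Pool.Agent.H.MP_35c8d5
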