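import Pool.Agent.H.MP_35c8d5.A

namespace Pool.Agent.H.MP_35c8d5

open Filter Topology Set

variable {Z : Type} [NormedAddCommGroup Z] [NormedSpace ℝ Z] {X : Type} [NormedAddCommGroup X]
  [NormedSpace ℝ X]

theorem ext [TopologicalSpace.SeparableSpace Z] [CompleteSpace X] (ι : X →ₗᵢ[ℝ] Z) {N : X → ℝ}
    (N0 : N 0 = 0) {A : Set (Z →L[ℝ] ℝ)} {M δ : ℝ} (M0 : 0 ≤ M) (δ0 : 0 < δ)
    (a1 : ∀ a ∈ A, ‖a‖ ≤ M) (a2 : ∀ a ∈ A, -a ∈ A) (a3 : ∀ a ∈ A, ∀ x, a (ι x) ≤ N x)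
    (a4 : ∀ z, ∃ a ∈ A, δ * ‖z‖ ≤ a z)
    (a5 : ∀ x, x ≠ 0 → ∃ φ ∈ A, φ (ι x) = N x ∧ ∀ v, Tendsto (fun a : Z →L[ℝ] ℝ => a v)
      (comap (fun a => a (ι x)) (𝓝 (N x)) ⊓ 𝓟 A) (𝓝 (φ v))) :
    ∃ M : Z → ℝ, ((∀ z w, M (z + w) ≤ M z + M w) ∧ (∀ (c : ℝ) (z : Z), M (c • z) = |c| * M z) ∧
      (∃ a b : ℝ, 0 < a ∧ ∀ z, a * ‖z‖ ≤ M z ∧ M z ≤ b * ‖z‖) ∧
      (∀ z : Z, z ≠ 0 → ∃ f : Z →L[ℝ] ℝ, ∀ h : Z, HasDerivAt (fun t : ℝ => M (z + t • h)) (f h) 0)) ∧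
      ∀ x : X, M (ι x) = N x := by
  obtain ⟨B, B1, B2, B3, B4, B5⟩ := exB (Z := Z)
  let P := convexHull ℝ ((fun a => (a, B a a)) '' A)
  have Pc : Convex ℝ P := convex_convexHull _ _
  have P1 : ∀ p ∈ P, ‖p.1‖ ≤ M ∧ p.2 ≤ M * M := fun p hp => by
    refine convexHull_min (t := Metric.closedBall 0 M ×ˢ Iic (M * M)) ?_
      ((convex_closedBall _ _).prod (convex_Iic _)) hp |>.imp_left (by simp)
    rintro _ ⟨a, ha, rfl⟩
    exact ⟨by simpa using a1 a ha, ((le_abs_self _).trans (B2 a a)).trans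
      (mul_self_le_mul_self (norm_nonneg _) (a1 a ha))⟩
  have P2 : ∀ (g : ((Z →L[ℝ] ℝ) × ℝ) → ℝ) (c : ℝ), IsLinearMap ℝ g → (∀ a ∈ A, g (a, B a a) ≤ c) →
      ∀ p ∈ P, g p ≤ c := fun g c hg h p hp =>
    convexHull_min (t := {p | g p ≤ c}) (by rintro _ ⟨a, ha, rfl⟩; exact h a ha)
      (convex_halfSpace_le hg c) hp
  have P3 : ∀ p ∈ P, (-p.1, p.2) ∈ P := fun p hp => by
    refine convexHull_min (t := LinearMap.prodMap (-LinearMap.id) LinearMap.id ⁻¹' P) ?_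
      (Pc.linear_preimage _) hp
    rintro _ ⟨a, ha, rfl⟩
    exact subset_convexHull _ _ ⟨-a, a2 a ha, by simp⟩
  let W : Set (Z →L[ℝ] ℝ) :=
    {w | ∃ p ∈ P, (∀ x, w (ι x) = p.1 (ι x)) ∧ (2 * M + 1) * ‖w - p.1‖ + B w w ≤ p.2}
  have W0 : ∀ a ∈ A, a ∈ W := fun a ha =>
    ⟨_, subset_convexHull _ _ ⟨a, ha, rfl⟩, fun _ => rfl, by simp⟩
  set R := M + M * M
  have R0 : 0 ≤ R := by positivity
  have W1 : ∀ w ∈ W, ‖w‖ ≤ R := by
    rintro w ⟨p, hp, -, h⟩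
    have := norm_add_le (w - p.1) p.1
    rw [sub_add_cancel] at this
    nlinarith [P1 p hp, B3 w, norm_nonneg (w - p.1)]
  have W2 : ∀ w ∈ W, -w ∈ W := by
    rintro w ⟨p, hp, h1, h⟩
    refine ⟨_, P3 p hp, fun x => by simp [h1], ?_⟩
    rw [← neg_sub', norm_neg]
    simpa using h
  have W3 : ∀ w ∈ W, ∀ x, w (ι x) ≤ N x := by
    rintro w ⟨p, hp, h1, -⟩ x
    rw [h1]
    exact P2 (fun p => p.1 (ι x)) _ ⟨fun _ _ => rfl, fun _ _ => rfl⟩ (fun a ha => a3 a ha x) p hp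
  have le : ∀ w ∈ W, ∀ z, w z ≤ R * ‖z‖ := fun w hw z =>
    (le_abs_self _).trans ((w.le_opNorm z).trans (by gcongr; exact W1 w hw))
  obtain ⟨a0, ha0, -⟩ := a4 0
  let q : Z → ℝ := fun z => sSup ((fun w => w z) '' W)
  have ne : ∀ z, ((fun w : Z →L[ℝ] ℝ => w z) '' W).Nonempty := fun z => ⟨_, a0, W0 _ ha0, rfl⟩
  have q1 : ∀ z, ∀ w ∈ W, w z ≤ q z := fun z w hw =>
    le_csSup ⟨R * ‖z‖, by rintro _ ⟨w, hw, rfl⟩; exact le w hw z⟩ ⟨w, hw, rfl⟩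
  have q3 : ∀ z c, (∀ w ∈ W, w z ≤ c) → q z ≤ c := fun z c h =>
    csSup_le (ne z) (by rintro _ ⟨w, hw, rfl⟩; exact h w hw)
  have q2 : ∀ z η, 0 < η → ∃ w ∈ W, q z - η ≤ w z := fun z η h => by
    obtain ⟨_, ⟨w, hw, rfl⟩, h⟩ := exists_lt_of_lt_csSup (ne z) (sub_lt_self (q z) h)
    exact ⟨w, hw, h.le⟩
  have q4 : ∀ (c : ℝ) z, q (c • z) ≤ |c| * q z := fun c z => q3 _ _ fun w hw => by
    rw [map_smul, smul_eq_mul]
    rcases le_total 0 c with h | h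
    · rw [abs_of_nonneg h]
      exact mul_le_mul_of_nonneg_left (q1 z w hw) h
    · have := mul_le_mul_of_nonneg_left (q1 z _ (W2 w hw)) (neg_nonneg.2 h)
      rw [abs_of_nonpos h]
      simpa using this
  have q5 : ∀ x, q (ι x) = N x := fun x => le_antisymm (q3 _ _ fun w hw => W3 w hw x) (by
    rcases eq_or_ne x 0 with rfl | h
    · simpa [N0] using q1 0 a0 (W0 _ ha0)
    · obtain ⟨φ, h1, h2, -⟩ := a5 x h
      exact h2 ▸ q1 _ _ (W0 _ h1))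
  refine ⟨q, ⟨fun z z' => q3 _ _ fun w hw => ?_, fun c z => le_antisymm (q4 c z) ?_,
    ⟨δ, R, δ0, fun z => ⟨?_, q3 _ _ fun w hw => le w hw z⟩⟩, fun z z0 => smul R0 W1 q1 q2 z ?_⟩, q5⟩
  · rw [map_add]
    exact add_le_add (q1 _ _ hw) (q1 _ _ hw)
  · rcases eq_or_ne c 0 with rfl | h
    · simpa using q1 0 a0 (W0 _ ha0)
    · have := mul_le_mul_of_nonneg_left (q4 c⁻¹ (c • z)) (abs_nonneg c)
      rwa [inv_smul_smul₀ h, ← mul_assoc, ← abs_mul, mul_inv_cancel₀ h, abs_one, one_mul] at this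
  · obtain ⟨a, ha, h⟩ := a4 z
    exact h.trans (q1 _ _ (W0 _ ha))
  intro v ε hε
  by_cases hz : z ∈ range ι
  · obtain ⟨x, rfl⟩ := hz
    obtain ⟨φ, h1, h2, h3⟩ := a5 x (by rintro rfl; simp at z0)
    obtain ⟨θ, θ0, hθ⟩ := B4 v (ε / 2) (R + M) (by positivity)
    have t := B5 _ (comap (fun a : Z →L[ℝ] ℝ => a (ι x)) (𝓝 (N x)) ⊓ 𝓟 A) (fun a => a - φ) (M + M)
      (eventually_inf_principal.2 (.of_forall fun a ha =>
        (norm_sub_le _ _).trans (add_le_add (a1 a ha) (a1 φ h1))))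
      fun v => by simpa using (h3 v).sub_const (φ v)
    obtain ⟨η, η0, hη⟩ := Metric.eventually_nhds_iff.1 (eventually_comap.1
      (eventually_inf_principal.1 (t.eventually (ge_mem_nhds (half_pos θ0)))))
    have k : ∀ w ∈ W, N x - η * (θ / 2) / ((M + M) ^ 2 + 1) ≤ w (ι x) → |w v - φ v| ≤ ε / 2 := by
      rintro w hw h
      refine hθ (w - φ) ((norm_sub_le _ _).trans (add_le_add (W1 w hw) (a1 φ h1))) ?_
      obtain ⟨p, hp, e, h'⟩ := hw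
      have := P2 (fun p => η * (p.2 - 2 * B p.1 φ) + ((M + M) ^ 2 + 1) * p.1 (ι x))
        (η * (θ / 2 - B φ φ) + ((M + M) ^ 2 + 1) * N x)
        ⟨fun _ _ => by simp; ring, fun _ _ => by simp; ring⟩ (fun a ha => ?_) p hp
      · have b := B2 (w - p.1) φ
        have := mul_le_mul_of_nonneg_left (a1 φ h1) (norm_nonneg (w - p.1))
        rw [sub_le_comm, le_div_iff₀ (by positivity), e] at h
        simp only [map_sub, LinearMap.sub_apply, B1 φ w] at b ⊢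
        refine le_of_mul_le_mul_left ?_ η0
        have : B w w - B w φ - (B w φ - B φ φ) ≤ p.2 - 2 * B p.1 φ + B φ φ := by
          nlinarith [(abs_le.1 b).1, norm_nonneg (w - p.1)]
        nlinarith
      · have e : B (a - φ) (a - φ) = B a a - 2 * B a φ + B φ φ := by
          simp only [map_sub, LinearMap.sub_apply, B1 φ a]
          ring
        have := a3 a ha x
        by_cases c : dist (a (ι x)) (N x) < η
        · have := mul_le_mul_of_nonneg_left (hη c a rfl ha) η0.le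
          rw [e] at this
          dsimp only
          nlinarith
        · rw [Real.dist_eq, abs_sub_comm, abs_of_nonneg (by linarith), not_lt] at c
          have b := (le_abs_self _).trans ((B2 (a - φ) (a - φ)).trans (mul_self_le_mul_self
            (norm_nonneg _) ((norm_sub_le _ _).trans (add_le_add (a1 a ha) (a1 φ h1)))))
          rw [e] at b
          dsimp only
          nlinarith [mul_le_mul_of_nonneg_left b η0.le, mul_pos η0 θ0,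
            mul_le_mul_of_nonneg_left c (sq_nonneg (M + M))]
    refine ⟨η * (θ / 2) / ((M + M) ^ 2 + 1), by positivity, fun w hw w' hw' h h' => ?_⟩
    rw [q5] at h h'
    have := abs_le.1 (k w hw h)
    have := abs_le.1 (k w' hw' h')
    exact abs_le.2 ⟨by linarith, by linarith⟩
  obtain ⟨c, u, c1, c2⟩ := geometric_hahn_banach_closed_point
    (LinearMap.range ι.toLinearMap).convex ι.isometry.isClosedEmbedding.isClosed_range hz
  have c3 : ∀ x, c (ι x) = 0 := fun x => by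
    by_contra h
    have := c1 _ ⟨(u / c (ι x)) • x, rfl⟩
    simp [h] at this
  have c4 : 0 < c z := by simpa using (c1 _ ⟨0, rfl⟩).trans c2
  obtain ⟨θ, θ0, hθ⟩ := B4 v ε (R + R) hε
  obtain ⟨τ, τ0, hτ⟩ : ∃ τ > 0, τ * ((2 * M + 1) * ‖c‖ + 2 * (R * ‖c‖) + τ * (‖c‖ * ‖c‖)) ≤ θ / 4 := by
    have t : Tendsto (fun τ : ℝ => τ * ((2 * M + 1) * ‖c‖ + 2 * (R * ‖c‖) + τ * (‖c‖ * ‖c‖)))
      (𝓝[>] 0) (𝓝 0) := (Continuous.tendsto' (by fun_prop) _ _ (by simp)).mono_left nhdsWithin_le_nhds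
    obtain ⟨τ, h1, h2⟩ := ((t.eventually (ge_mem_nhds (show 0 < θ / 4 by positivity))).and
      self_mem_nhdsWithin).exists
    exact ⟨τ, h2, h1⟩
  refine ⟨τ * c z / 2, by positivity, fun w hw w' hw' h h' => hθ (w - w')
    ((norm_sub_le _ _).trans (add_le_add (W1 w hw) (W1 w' hw'))) (not_lt.1 fun hn => ?_)⟩
  have r := W1 w hw
  have r' := W1 w' hw'
  obtain ⟨p, hp, e, k⟩ := hw
  obtain ⟨p', hp', e', k'⟩ := hw'
  have := q1 z ((1 / 2 : ℝ) • w + (1 / 2 : ℝ) • w' + τ • c) ⟨_, Pc hp hp' (a := 1 / 2) (b := 1 / 2)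
    (by norm_num) (by norm_num) (by norm_num), fun x => by simp [e, e', c3], ?_⟩
  · simp only [_root_.add_apply, _root_.smul_apply, smul_eq_mul] at this
    linarith [mul_pos τ0 c4]
  have n : ‖(1 / 2 : ℝ) • w + (1 / 2 : ℝ) • w' + τ • c - ((1 / 2 : ℝ) • p + (1 / 2 : ℝ) • p').1‖ ≤
      1 / 2 * ‖w - p.1‖ + 1 / 2 * ‖w' - p'.1‖ + τ * ‖c‖ := by
    rw [show (1 / 2 : ℝ) • w + (1 / 2 : ℝ) • w' + τ • c - ((1 / 2 : ℝ) • p + (1 / 2 : ℝ) • p').1 =
      (1 / 2 : ℝ) • (w - p.1) + (1 / 2 : ℝ) • (w' - p'.1) + τ • c by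
        simp only [Prod.fst_add, Prod.smul_fst]; module]
    refine norm_add₃_le.trans ?_
    simp [norm_smul, abs_of_pos τ0]
  have b1 := (le_abs_self _).trans ((B2 w c).trans (mul_le_mul_of_nonneg_right r (norm_nonneg _)))
  have b2 := (le_abs_self _).trans ((B2 w' c).trans (mul_le_mul_of_nonneg_right r' (norm_nonneg _)))
  have b3 := (le_abs_self _).trans (B2 c c)
  simp only [map_sub, map_add, map_smul, LinearMap.sub_apply, LinearMap.add_apply,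
    LinearMap.smul_apply, smul_eq_mul, B1 w' w, B1 c w, B1 c w', Prod.snd_add, Prod.smul_snd] at hn ⊢
  nlinarith [mul_le_mul_of_nonneg_left n (show 0 ≤ 2 * M + 1 by positivity),
    mul_le_mul_of_nonneg_left b1 τ0.le, mul_le_mul_of_nonneg_left b2 τ0.le,
    mul_le_mul_of_nonneg_left b3 (mul_pos τ0 τ0).le]

end Pool.Agent.H.MP_35c8d5
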