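import Pool.Agent.H.MP_35c8d5.B

namespace Pool.Agent.H.MP_35c8d5

open Filter Topology Set

variable {Z : Type} [NormedAddCommGroup Z] [NormedSpace ℝ Z] {X : Type} [NormedAddCommGroup X]
  [NormedSpace ℝ X]

theorem hb (ι : X →ₗᵢ[ℝ] Z) (g : X →L[ℝ] ℝ) :
    ∃ e : Z →L[ℝ] ℝ, ‖e‖ ≤ ‖g‖ ∧ ∀ x, e (ι x) = g x := by
  obtain ⟨e, h1, h2⟩ := exists_extension_norm_eq (LinearMap.range ι.toLinearMap)
    (g.comp ι.equivRange.symm.toContinuousLinearEquiv.toContinuousLinearMap)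
  refine ⟨e, h2.trans_le (ContinuousLinearMap.opNorm_le_bound _ (norm_nonneg _) fun v => ?_),
    fun x => ?_⟩
  · simpa using g.le_opNorm (ι.equivRange.symm v)
  · simpa using h1 (ι.equivRange x)

theorem sob [TopologicalSpace.SeparableSpace Z] (ι : X →ₗᵢ[ℝ] Z) {J : Type} (ν : J → ℕ)
    (g : J → X →L[ℝ] ℝ) (g1 : ∀ j, ‖g j‖ ≤ 1)
    (g2 : ∀ x, Tendsto (fun j => g j x) (comap ν atTop) (𝓝 0)) :
    ∃ t : J → Z →L[ℝ] ℝ, (∀ j, ‖t j‖ ≤ 2) ∧ (∀ j x, t j (ι x) = g j x) ∧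
      ∀ v, Tendsto (fun j => t j v) (comap ν atTop) (𝓝 0) := by
  obtain ⟨B, -, -, B3, B4, B5⟩ := exB (Z := Z)
  choose e e1 e2 using fun j => hb ι (g j)
  let K : Set (Z →L[ℝ] ℝ) := {c | ‖c‖ ≤ 1 ∧ ∀ x, c (ι x) = 0}
  let S : J → Set ℝ := fun j => (fun c => B (e j - c) (e j - c)) '' K
  have b : ∀ j, BddBelow (S j) := fun j => ⟨0, by rintro _ ⟨c, -, rfl⟩; exact B3 _⟩
  have ne : ∀ j, (S j).Nonempty := fun j => ⟨_, 0, ⟨by simp, fun _ => rfl⟩, rfl⟩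
  have : ∀ j, ∃ c ∈ K, B (e j - c) (e j - c) < sInf (S j) + 1 / ((ν j : ℝ) + 1) := fun j => by
    obtain ⟨_, ⟨c, hc, rfl⟩, h⟩ := exists_lt_of_csInf_lt (ne j)
      (lt_add_of_pos_right (sInf (S j)) (show 0 < 1 / ((ν j : ℝ) + 1) by positivity))
    exact ⟨c, hc, h⟩
  choose c c1 c2 using this
  have n : ∀ j, ∀ c ∈ K, ‖e j - c‖ ≤ 2 := fun j c hc =>
    (norm_sub_le _ _).trans (by linarith [e1 j, g1 j, hc.1])
  have t : Tendsto (fun j => sInf (S j)) (comap ν atTop) (𝓝 0) := by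
    refine tendsto_iff_ultrafilter _ _ _ |>.2 fun U hU => ?_
    obtain ⟨a, a1, a2⟩ := ulim U e zero_le_one (.of_forall fun j => (e1 j).trans (g1 j))
    have ha : a ∈ K := ⟨a1, fun x => tendsto_nhds_unique (a2 _) (by
      simpa only [e2] using (g2 x).mono_left hU)⟩
    exact squeeze_zero (fun j => le_csInf (ne j) (by rintro _ ⟨c, -, rfl⟩; exact B3 _))
      (fun j => csInf_le (b j) ⟨a, ha, rfl⟩) (B5 _ U (fun j => e j - a) 2
        (.of_forall fun j => n j a ha) fun v => by simpa using (a2 v).sub_const (a v))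
  refine ⟨fun j => e j - c j, fun j => n j _ (c1 j), fun j x => by simp [e2, (c1 j).2], fun v => ?_⟩
  have t2 := t.add (tendsto_one_div_add_atTop_nhds_zero_nat.comp (tendsto_comap (f := ν)))
  refine Metric.tendsto_nhds.2 fun ε hε => ?_
  obtain ⟨θ, θ0, h⟩ := B4 v (ε / 2) 2 (half_pos hε)
  filter_upwards [t2.eventually (ge_mem_nhds (by simpa using θ0))] with j hj
  rw [Real.dist_eq, sub_zero]
  exact (h _ (n j _ (c1 j)) ((c2 j).le.trans hj)).trans_lt (half_lt_self hε)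

def sg (b : Bool) : ℝ := if b then 1 else -1

theorem exW (n : ℕ) : ∃ ω : (Fin n → Bool) → (Fin n → ℝ) → ℝ, (∀ s, Continuous (ω s)) ∧
    (∀ s φ, 0 ≤ ω s φ) ∧ (∀ φ, ∑ s, ω s φ = ‖φ‖) ∧ ∀ φ j, ∑ s, ω s φ * sg (s j) = φ j := by
  have b : ∀ (φ : Fin n → ℝ) i c, |sg c * (φ i / ‖φ‖)| ≤ 1 := fun φ i c => by
    rw [abs_mul, abs_div, abs_norm, show |sg c| = 1 by cases c <;> simp [sg], one_mul]
    exact div_le_one_of_le₀ (norm_le_pi_norm φ i) (norm_nonneg _)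
  have p : ∀ (s : Fin n → Bool) (φ : Fin n → ℝ),
      0 ≤ ∏ i, (1 + sg (s i) * (φ i / ‖φ‖)) / 2 := fun s φ =>
    Finset.prod_nonneg fun i _ => by linarith [(abs_le.1 (b φ i (s i))).1]
  refine ⟨fun s φ => ‖φ‖ * ∏ i, (1 + sg (s i) * (φ i / ‖φ‖)) / 2, fun s => ?_,
    fun s φ => mul_nonneg (norm_nonneg _) (p s φ), fun φ => ?_, fun φ j => ?_⟩
  · refine continuous_iff_continuousAt.2 fun φ => ?_
    rcases eq_or_ne φ 0 with rfl | h
    · refine (squeeze_zero (fun φ => mul_nonneg (norm_nonneg _) (p s φ)) (fun φ =>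
        mul_le_of_le_one_right (norm_nonneg _) (Finset.prod_le_one (fun i _ => ?_) fun i _ => ?_))
        tendsto_norm_zero).trans (by simp)
      · linarith [(abs_le.1 (b φ i (s i))).1]
      · linarith [(abs_le.1 (b φ i (s i))).2]
    · have := norm_ne_zero_iff.2 h
      fun_prop (disch := assumption)
  · rw [← Finset.mul_sum, ← Fintype.piFinset_univ,
      ← Finset.prod_univ_sum (fun _ => Finset.univ) fun i c => (1 + sg c * (φ i / ‖φ‖)) / 2,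
      Finset.prod_eq_one fun i _ => by simp [sg]; ring, mul_one]
  · have e : ∀ s : Fin n → Bool, (∏ i, (1 + sg (s i) * (φ i / ‖φ‖)) / 2) * sg (s j) =
        ∏ i, (1 + sg (s i) * (φ i / ‖φ‖)) / 2 * if i = j then sg (s i) else 1 := fun s => by
      rw [Finset.prod_mul_distrib, Finset.prod_ite_eq']
      simp
    simp only [mul_assoc, e]
    rw [← Finset.mul_sum, ← Fintype.piFinset_univ, ← Finset.prod_univ_sum (fun _ => Finset.univ)
      fun i c => (1 + sg c * (φ i / ‖φ‖)) / 2 * if i = j then sg c else 1,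
      Finset.prod_eq_single j (fun i _ h => by simp [sg, h]; ring) (by simp)]
    rcases eq_or_ne φ 0 with rfl | h
    · simp
    · have := norm_ne_zero_iff.2 h
      simp [sg]
      field_simp
      ring

theorem sel [TopologicalSpace.SeparableSpace Z] (ι : X →ₗᵢ[ℝ] Z) (x : (Σ n, Fin n) → X)
    (x1 : Dense (Submodule.span ℝ (range x) : Set X))
    (x2 : ∀ (f : X →L[ℝ] ℝ) N, ∑ n ∈ Finset.range N, ‖fun i => f (x ⟨n, i⟩)‖ ≤ ‖f‖)
    (g : (Σ n, Fin n → Bool) → X →L[ℝ] ℝ) (g1 : ∀ j, ‖g j‖ ≤ 1)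
    (g2 : ∀ v, Tendsto (fun j => g j v) (comap Sigma.fst atTop) (𝓝 0))
    (g3 : ∀ n s i, g ⟨n, s⟩ (x ⟨n, i⟩) = sg (s i))
    (g4 : ∀ n s m i, n ≠ m → g ⟨n, s⟩ (x ⟨m, i⟩) = 0) :
    ∃ s : (X →L[ℝ] ℝ) → Z →L[ℝ] ℝ, (∀ f, ‖s f‖ ≤ 2 * ‖f‖) ∧ (∀ f v, s f (ι v) = f v) ∧
      (∀ f, s (-f) = -s f) ∧ ∀ (κ : Type) (l : Filter κ) (f : κ → X →L[ℝ] ℝ) (f' : X →L[ℝ] ℝ) (R : ℝ),
        (∀ᶠ i in l, ‖f i‖ ≤ R) → (∀ v, Tendsto (fun i => f i v) l (𝓝 (f' v))) →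
        ∀ v, Tendsto (fun i => s (f i) v) l (𝓝 (s f' v)) := by
  obtain ⟨t, t1, t2, t3⟩ := sob ι Sigma.fst g g1 g2
  choose ω ω1 ω2 ω3 ω4 using exW
  let u : (X →L[ℝ] ℝ) → ℕ → Z →L[ℝ] ℝ := fun f n => ∑ s, ω n s (fun i => f (x ⟨n, i⟩)) • t ⟨n, s⟩
  have r : ∀ f : X →L[ℝ] ℝ, Summable fun n => ‖fun i => f (x ⟨n, i⟩)‖ := fun f =>
    summable_of_sum_range_le (fun _ => norm_nonneg _) (x2 f)
  have r2 : ∀ f : X →L[ℝ] ℝ, ∑' n, ‖fun i => f (x ⟨n, i⟩)‖ ≤ ‖f‖ := fun f =>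
    Real.tsum_le_of_sum_range_le (fun _ => norm_nonneg _) (x2 f)
  have u1 : ∀ f n, ‖u f n‖ ≤ 2 * ‖fun i => f (x ⟨n, i⟩)‖ := fun f n => by
    rw [← ω3, Finset.mul_sum]
    refine norm_sum_le_of_le _ fun s _ => ?_
    rw [norm_smul, Real.norm_of_nonneg (ω2 _ _ _), mul_comm]
    exact mul_le_mul_of_nonneg_right (t1 _) (ω2 _ _ _)
  have u2 : ∀ f, Summable (u f) := fun f => .of_norm_bounded ((r f).mul_left 2) (u1 f)
  have u3 : ∀ f v, HasSum (fun n => u f n v) ((∑' n, u f n) v) := fun f v =>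
    (ContinuousLinearMap.apply ℝ ℝ v).hasSum (u2 f).hasSum
  have u4 : ∀ f, ‖∑' n, u f n‖ ≤ 2 * ‖f‖ := fun f =>
    (tsum_of_norm_bounded ((r f).hasSum.mul_left 2) (u1 f)).trans (by linarith [r2 f])
  have u5 : ∀ f v, (∑' n, u f n) (ι v) = f v := fun f v => by
    have := ContinuousLinearMap.ext_on (f := (∑' n, u f n).comp ι.toContinuousLinearMap) (g := f) x1 ?_
    · exact congrArg (fun f : X →L[ℝ] ℝ => f v) this
    rintro _ ⟨⟨m, i⟩, rfl⟩
    refine (u3 f _).unique ?_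
    convert hasSum_single m fun n h => ?_
    · simp [u, t2, g3, ω4]
    · simp [u, t2, g4 _ _ _ _ h]
  have u6 : ∀ (κ : Type) (l : Filter κ) (f : κ → X →L[ℝ] ℝ) (f' : X →L[ℝ] ℝ) (R : ℝ),
      (∀ᶠ i in l, ‖f i‖ ≤ R) → (∀ v, Tendsto (fun i => f i v) l (𝓝 (f' v))) →
      ∀ v, Tendsto (fun i => (∑' n, u (f i) n) v) l (𝓝 ((∑' n, u f' n) v)) := by
    intro κ l f f' R h1 h2 v
    refine Metric.tendsto_nhds.2 fun ε hε => ?_
    obtain ⟨N, hN⟩ := eventually_atTop.1 (eventually_comap.1 ((t3 v).norm.eventually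
      (ge_mem_nhds (show ‖(0 : ℝ)‖ < ε / 2 / (|R| + ‖f'‖ + 1) by rw [norm_zero]; positivity))))
    have k : ∀ f, ‖(∑' n, u f n) v - ∑ n ∈ Finset.range N, u f n v‖ ≤
        ε / 2 / (|R| + ‖f'‖ + 1) * ‖f‖ := fun f => by
      rw [← (u3 f v).tsum_eq, ← (u3 f v).summable.sum_add_tsum_nat_add N, add_sub_cancel_left]
      refine (tsum_of_norm_bounded (((summable_nat_add_iff N).2 (r f)).hasSum.mul_left
        (ε / 2 / (|R| + ‖f'‖ + 1))) fun n => ?_).trans ?_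
      · rw [← ω3, Finset.mul_sum, _root_.sum_apply]
        refine norm_sum_le_of_le _ fun s _ => ?_
        rw [_root_.smul_apply, norm_smul, Real.norm_of_nonneg (ω2 _ _ _), mul_comm]
        exact mul_le_mul_of_nonneg_right (hN _ (by simp) _ rfl) (ω2 _ _ _)
      · gcongr
        refine le_trans ?_ (r2 f)
        rw [← (r f).sum_add_tsum_nat_add N]
        exact le_add_of_nonneg_left (Finset.sum_nonneg fun _ _ => norm_nonneg _)
    have c : Tendsto (fun i => ∑ n ∈ Finset.range N, u (f i) n v) l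
        (𝓝 (∑ n ∈ Finset.range N, u f' n v)) := tendsto_finsetSum _ fun n _ => by
      simp only [u, _root_.sum_apply, _root_.smul_apply, smul_eq_mul]
      exact tendsto_finsetSum _ fun s _ =>
        (((ω1 n s).tendsto _).comp (tendsto_pi_nhds.2 fun i => h2 _)).mul_const _
    filter_upwards [h1, Metric.tendsto_nhds.1 c _ (half_pos hε)] with i hi h
    have k1 := k (f i)
    have k2 := k f'
    have : ε / 2 / (|R| + ‖f'‖ + 1) * (‖f i‖ + ‖f'‖) ≤ ε / 2 := by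
      rw [div_mul_eq_mul_div, div_le_iff₀ (by positivity)]
      exact mul_le_mul_of_nonneg_left (by linarith [le_abs_self R]) (half_pos hε).le
    rw [Real.dist_eq, abs_lt] at h ⊢
    rw [Real.norm_eq_abs, abs_le] at k1 k2
    constructor <;> linarith [k1.1, k1.2, k2.1, k2.2, h.1, h.2]
  refine ⟨fun f => (1 / 2 : ℝ) • (∑' n, u f n - ∑' n, u (-f) n), fun f => ?_, fun f v => ?_,
    fun f => ?_, fun κ l f f' R h1 h2 v => ?_⟩
  · have := u4 (-f)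
    rw [norm_neg] at this
    rw [norm_smul, Real.norm_of_nonneg (by norm_num)]
    linarith [norm_sub_le (∑' n, u f n) (∑' n, u (-f) n), u4 f]
  · simp only [_root_.smul_apply, _root_.sub_apply, u5, _root_.neg_apply, smul_eq_mul]
    ring
  · simp only [neg_neg]
    module
  · exact ((u6 κ l f f' R h1 h2 v).sub (u6 κ l (fun i => -f i) (-f') R (by simpa using h1)
      (fun v => (h2 v).neg) v)).const_mul (1 / 2)

end Pool.Agent.H.MP_35c8d5
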