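import Pool.Agent.H.MP_35c8d5.C
import Pool.Agent.H.MP_9aa7de.A
import Pool.Agent.H.MP_ec23a5.A
import Pool.Agent.Lib.helper20.C0

namespace Pool.Agent.H.MP_35c8d5

open Filter Topology Set

variable {Z : Type} [NormedAddCommGroup Z] [NormedSpace ℝ Z] {X : Type} [NormedAddCommGroup X]
  [NormedSpace ℝ X]

theorem propE [TopologicalSpace.SeparableSpace Z] [CompleteSpace X] (ι : X →ₗᵢ[ℝ] Z)
    (s : (X →L[ℝ] ℝ) → Z →L[ℝ] ℝ) (s1 : ∀ f, ‖s f‖ ≤ 2 * ‖f‖) (s2 : ∀ f v, s f (ι v) = f v)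
    (s3 : ∀ f, s (-f) = -s f)
    (s4 : ∀ (κ : Type) (l : Filter κ) (f : κ → X →L[ℝ] ℝ) (f' : X →L[ℝ] ℝ) (R : ℝ),
        (∀ᶠ i in l, ‖f i‖ ≤ R) → (∀ v, Tendsto (fun i => f i v) l (𝓝 (f' v))) →
        ∀ v, Tendsto (fun i => s (f i) v) l (𝓝 (s f' v))) (N : X → ℝ)
    (n1 : ∀ x y, N (x + y) ≤ N x + N y) (n2 : ∀ (c : ℝ) (x : X), N (c • x) = |c| * N x)
    {a b : ℝ} (a0 : 0 < a) (n3 : ∀ x, a * ‖x‖ ≤ N x ∧ N x ≤ b * ‖x‖)
    (n4 : ∀ x : X, x ≠ 0 → ∃ f : X →L[ℝ] ℝ,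
      ∀ h : X, HasDerivAt (fun t : ℝ => N (x + t • h)) (f h) 0) :
    ∃ M : Z → ℝ, ((∀ z w, M (z + w) ≤ M z + M w) ∧ (∀ (c : ℝ) (z : Z), M (c • z) = |c| * M z) ∧
      (∃ a b : ℝ, 0 < a ∧ ∀ z, a * ‖z‖ ≤ M z ∧ M z ≤ b * ‖z‖) ∧
      (∀ z : Z, z ≠ 0 → ∃ f : Z →L[ℝ] ℝ, ∀ h : Z, HasDerivAt (fun t : ℝ => M (z + t • h)) (f h) 0)) ∧
      ∀ x : X, M (ι x) = N x := by
  let ρ : (Z →L[ℝ] ℝ) → X →L[ℝ] ℝ := fun c => c.comp ι.toContinuousLinearMap
  have ρ1 : ∀ f, ρ (s f) = f := fun f => ContinuousLinearMap.ext (s2 f)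
  have ev : ∀ x, N (-x) = N x := fun x => by simpa using n2 (-1) x
  have nb : ∀ f : X →L[ℝ] ℝ, (∀ x, f x ≤ N x) → ‖f‖ ≤ |b| := fun f h =>
    f.opNorm_le_bound (abs_nonneg _) fun x => by
      have := h (-x)
      rw [ev, map_neg] at this
      have := mul_le_mul_of_nonneg_right (le_abs_self b) (norm_nonneg x)
      exact abs_le.2 ⟨by linarith [(n3 x).2], by linarith [(n3 x).2, h x]⟩
  have sm : ∀ c : Z →L[ℝ] ℝ, ‖c‖ ≤ a / 2 → ∀ x, c (ι x) ≤ N x / 2 := fun c h x => by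
    have := (le_abs_self _).trans (c.le_opNorm (ι x))
    rw [ι.norm_map] at this
    nlinarith [(n3 x).1, norm_nonneg x]
  have N0 : ∀ x, 0 ≤ N x := fun x => le_trans (by positivity) (n3 x).1
  refine ext ι (by simpa using n2 0 0)
    (A := {c | ((∀ x, ρ c x ≤ N x) ∧ c = s (ρ c)) ∨ ‖c‖ ≤ a / 2}) (M := 2 * |b| + a / 2)
    (by positivity) (half_pos a0) ?_ ?_ ?_ (fun z => ?_) fun x x0 => ?_
  · rintro c (⟨h, e⟩ | h)
    · linarith [s1 (ρ c), congrArg norm e, nb _ h]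
    · linarith [abs_nonneg b]
  · rintro c (⟨h, e⟩ | h)
    · refine .inl ⟨fun x => ?_, ?_⟩
      · simpa [ρ, ev] using h (-x)
      · rw [show ρ (-c) = -ρ c from rfl, s3, ← e]
    · exact .inr (by simpa using h)
  · rintro c (⟨h, e⟩ | h) x
    · exact h x
    · linarith [sm c h x, N0 x]
  · obtain ⟨c, c1, c2⟩ := exists_dual_vector'' ℝ z
    refine ⟨(a / 2) • c, .inr ?_, by simp [c2]⟩
    rw [norm_smul, Real.norm_of_nonneg (by positivity)]
    exact mul_le_of_le_one_right (by positivity) c1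
  obtain ⟨J, hJ⟩ := n4 x x0
  have sl : ∀ h, Tendsto (fun t : ℝ => t⁻¹ * (N (x + t • h) - N x)) (𝓝[>] 0) (𝓝 (J h)) := fun h => by
    simpa using (hJ h).tendsto_slope_zero_right
  have J1 : ∀ h, J h ≤ N h := fun h => le_of_tendsto (sl h) (eventually_nhdsWithin_of_forall
    fun t (ht : 0 < t) => by
      rw [inv_mul_le_iff₀ ht]
      have := n1 x (t • h)
      rw [n2, abs_of_pos ht] at this
      linarith)
  have J2 : J x = N x := tendsto_nhds_unique (sl x) (tendsto_const_nhds.congr'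
    (eventually_nhdsWithin_of_forall fun t (ht : 0 < t) => by
      dsimp only
      rw [show x + t • x = (1 + t) • x by module, n2, abs_of_pos (by linarith)]
      field_simp
      ring))
  have Np : 0 < N x := lt_of_lt_of_le (mul_pos a0 (norm_pos_iff.2 x0)) (n3 x).1
  refine ⟨s J, .inl (by rw [ρ1]; exact ⟨J1, rfl⟩), (s2 _ _).trans J2, fun v => ?_⟩
  set l := comap (fun c : Z →L[ℝ] ℝ => c (ι x)) (𝓝 (N x)) ⊓
    𝓟 {c | ((∀ x, ρ c x ≤ N x) ∧ c = s (ρ c)) ∨ ‖c‖ ≤ a / 2}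
  have t : Tendsto (fun c => ρ c x) l (𝓝 (N x)) := tendsto_comap.mono_left inf_le_left
  have e : ∀ᶠ c in l, (∀ x, ρ c x ≤ N x) ∧ c = s (ρ c) := by
    filter_upwards [t.eventually (lt_mem_nhds (half_lt_self Np)),
      mem_inf_of_right (mem_principal_self _)] with c h1 h2
    exact h2.resolve_right fun h => (sm c h x).not_gt h1
  have u : ∀ h ε, 0 < ε → ∀ᶠ c in l, ρ c h < J h + ε := fun h ε hε => by
    obtain ⟨τ, h1, τ0⟩ := (((sl h).eventually (gt_mem_nhds (lt_add_of_pos_right _ (half_pos hε)))).and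
      self_mem_nhdsWithin).exists
    replace τ0 : 0 < τ := τ0
    filter_upwards [e, t.eventually (lt_mem_nhds (sub_lt_self _ (mul_pos τ0 (half_pos hε))))]
      with c h2 h3
    have := h2.1 (x + τ • h)
    rw [map_add, map_smul, smul_eq_mul] at this
    rw [inv_mul_lt_iff₀ τ0] at h1
    exact lt_of_mul_lt_mul_left (by linarith) τ0.le
  refine (s4 _ l ρ J |b| (e.mono fun c h => nb _ h.1) (fun h => Metric.tendsto_nhds.2 fun ε hε => ?_)
    v).congr' (e.mono fun c h => by rw [← h.2])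
  filter_upwards [u h ε hε, u (-h) ε hε] with c h1 h2
  rw [map_neg, map_neg] at h2
  exact abs_lt.2 ⟨by linarith, by linarith⟩

open MP_ec23a5 in
theorem kh (n : ℕ) (a : Fin n → ℝ) :
    9 / 16 * Fintype.card (Fin n → Bool) * √(∑ i, a i ^ 2) ≤ ∑ ω, |∑ i, a i * r i ω| := by
  obtain ⟨h1, h2⟩ := mom a Finset.univ
  set σ := √(∑ i, a i ^ 2)
  have e : σ ^ 2 = ∑ i, a i ^ 2 := Real.sq_sqrt (by positivity)
  rcases (Real.sqrt_nonneg (∑ i, a i ^ 2)).eq_or_lt with h | h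
  · rw [show σ = 0 from h.symm, mul_zero]
    positivity
  rw [← e] at h1 h2
  replace h : 0 < σ := h
  have k : ∀ t : ℝ, 12 * σ ^ 2 * t ^ 2 - t ^ 4 ≤ 16 * σ ^ 3 * |t| := fun t => by
    rw [← sq_abs t, ← Even.pow_abs (by decide : Even 4) t]
    nlinarith [mul_nonneg (mul_nonneg (abs_nonneg t) (sq_nonneg (|t| - 2 * σ)))
      (show 0 ≤ |t| + 4 * σ by positivity)]
  have := Finset.sum_le_sum fun ω (_ : ω ∈ Finset.univ) => k (∑ i, a i * r i ω)
  rw [Finset.sum_sub_distrib, ← Finset.mul_sum, ← Finset.mul_sum, h1] at this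
  refine le_of_mul_le_mul_left ?_ (show 0 < 16 * σ ^ 3 by positivity)
  nlinarith

open Lib.helper20 in
theorem l1 (ψ : C0.X →L[ℝ] ℝ) (m : ℕ) : ∑ k ∈ Finset.range m, |ψ (C0.e k)| ≤ ‖ψ‖ := by
  have := (le_abs_self _).trans (ψ.le_opNorm (∑ k ∈ Finset.range m,
    (SignType.sign (ψ (C0.e k)) : ℝ) • C0.e k))
  simp only [map_sum, map_smul, smul_eq_mul, sign_mul_self] at this
  refine this.trans (mul_le_of_le_one_right (norm_nonneg _) (C0.norm_le _ _ zero_le_one fun n => ?_))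
  simp only [map_sum, map_smul, C0.ev_e, smul_eq_mul, mul_ite, mul_one, mul_zero, Finset.sum_ite_eq]
  split_ifs
  · rcases lt_trichotomy (ψ (C0.e n)) 0 with h | h | h <;> simp [h]
  · simp

open Lib.helper20 in
theorem noniso (x : (Σ n, Fin n) → X) (x1 : ∀ i, ‖x i‖ ≤ 1) (e : (Σ n, Fin n) → X →L[ℝ] ℝ)
    (e1 : ∀ i, e i (x i) = 1) (e2 : ∀ n (s : Fin n → Bool), ‖∑ i, sg (s i) • e ⟨n, i⟩‖ ≤ 1)
    (U : X ≃L[ℝ] C0.X) : False := by
  set C := ‖(U.symm : C0.X →L[ℝ] X)‖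
  set D := ‖(U : X →L[ℝ] C0.X)‖
  have C0' : 0 ≤ C := norm_nonneg _
  have D0 : 0 ≤ D := norm_nonneg _
  obtain ⟨n, hn⟩ := exists_nat_gt ((4 * C * D) ^ 2)
  let ψ : Fin n → C0.X →L[ℝ] ℝ := fun i => (e ⟨n, i⟩).comp (U.symm : C0.X →L[ℝ] X)
  obtain ⟨m, hm⟩ := (eventually_all.2 fun i : Fin n => (((ψ i).continuous.tendsto _).comp
    (C0.trunc_tendsto (U (x ⟨n, i⟩)))).eventually (lt_mem_nhds (a := 1 / 2)
      (by simp [ψ, e1]; norm_num))).exists
  have h1 : ∀ s : Fin n → Bool, ∑ k ∈ Finset.range m, |∑ i, ψ i (C0.e k) * MP_ec23a5.r i s| ≤ C :=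
    fun s => by
      have := l1 ((∑ i, sg (s i) • e ⟨n, i⟩).comp (U.symm : C0.X →L[ℝ] X)) m
      refine le_trans (le_of_eq (Finset.sum_congr rfl fun k _ => ?_)) (this.trans
        ((ContinuousLinearMap.opNorm_comp_le _ _).trans (mul_le_of_le_one_left C0' (e2 n s))))
      simp only [ψ, ContinuousLinearMap.comp_apply, _root_.sum_apply, _root_.smul_apply, smul_eq_mul,
        mul_comm (sg _)]
      rfl
  have h2 : 9 / 16 * ∑ k ∈ Finset.range m, √(∑ i, ψ i (C0.e k) ^ 2) ≤ C := by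
    have := (Finset.sum_le_sum fun k (_ : k ∈ Finset.range m) => kh n fun i => ψ i (C0.e k)).trans
      (Finset.sum_comm.trans_le (Finset.sum_le_sum fun s _ => h1 s))
    rw [← Finset.mul_sum, Finset.sum_const, Finset.card_univ, nsmul_eq_mul] at this
    refine le_of_mul_le_mul_left ?_ (show (0 : ℝ) < Fintype.card (Fin n → Bool) by simp)
    linarith
  have h3 : ∀ i, 1 / 2 ≤ D * ∑ k ∈ Finset.range m, |ψ i (C0.e k)| := fun i => by
    refine (hm i).le.trans ?_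
    simp only [Function.comp, C0.trunc_eq, map_sum, map_smul, smul_eq_mul, Finset.mul_sum]
    refine Finset.sum_le_sum fun k _ => (le_abs_self _).trans ?_
    rw [abs_mul]
    gcongr
    exact (C0.abs_le_norm _ _).trans (((U : X →L[ℝ] C0.X).le_opNorm _).trans
      (mul_le_of_le_one_right D0 (x1 _)))
  have h4 := Finset.sum_le_sum fun i (_ : i ∈ Finset.univ) => h3 i
  rw [← Finset.mul_sum, Finset.sum_comm] at h4
  have h5 : ∀ k, ∑ i, |ψ i (C0.e k)| ≤ √n * √(∑ i, ψ i (C0.e k) ^ 2) := fun k => by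
    rw [← Real.sqrt_mul (Nat.cast_nonneg _)]
    refine Real.le_sqrt_of_sq_le ?_
    simpa using sq_sum_le_card_mul_sum_sq (s := Finset.univ) (f := fun i => |ψ i (C0.e k)|)
  have h6 := mul_le_mul_of_nonneg_left
    (Finset.sum_le_sum fun k (_ : k ∈ Finset.range m) => h5 k) D0
  rw [← Finset.mul_sum] at h6
  simp only [Finset.sum_const, Finset.card_univ, Fintype.card_fin, nsmul_eq_mul] at h4
  have h7 : 4 * C * D < √n := Real.lt_sqrt_of_sq_lt hn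
  have h8 := Real.mul_self_sqrt (Nat.cast_nonneg n : (0 : ℝ) ≤ n)
  have h9 : 0 < √(n : ℝ) := lt_of_le_of_lt (by positivity) h7
  have := mul_le_mul_of_nonneg_left h2 (mul_pos h9 two_pos).le
  have := mul_le_mul_of_nonneg_left this D0
  have := mul_lt_mul_of_pos_left h7 h9
  nlinarith

theorem main : ∃ (X : Type) (_ : NormedAddCommGroup X) (_ : NormedSpace ℝ X) (_ : CompleteSpace X)
    (_ : TopologicalSpace.SeparableSpace X), ¬ FiniteDimensional ℝ X ∧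
    IsEmpty (X ≃L[ℝ] ZeroAtInftyContinuousMap ℕ ℝ) ∧
    ∀ (Z : Type) [NormedAddCommGroup Z] [NormedSpace ℝ Z] [TopologicalSpace.SeparableSpace Z]
      (ι : X →ₗᵢ[ℝ] Z), ∃ s : (X →L[ℝ] ℝ) → Z →L[ℝ] ℝ, (∀ f, ‖s f‖ ≤ 2 * ‖f‖) ∧
      (∀ f v, s f (ι v) = f v) ∧ (∀ f, s (-f) = -s f) ∧
      ∀ (κ : Type) (l : Filter κ) (f : κ → X →L[ℝ] ℝ) (f' : X →L[ℝ] ℝ) (R : ℝ),
        (∀ᶠ i in l, ‖f i‖ ≤ R) → (∀ v, Tendsto (fun i => f i v) l (𝓝 (f' v))) →
        ∀ v, Tendsto (fun i => s (f i) v) l (𝓝 (s f' v)) := by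
  classical
  obtain ⟨X, _, _, _, x, ev, h1, h2, h3⟩ := MP_9aa7de.exX (I := Σ n, Fin n)
    (fun w => (∀ i, |w i| ≤ 1) ∧ ∃ n, ∀ i : Σ n, Fin n, i.1 ≠ n → w i = 0) (fun w h => h.1)
    fun i => ⟨fun j => by rw [Finsupp.single_apply]; split_ifs <;> simp, i.1, fun j h =>
      Finsupp.single_eq_of_ne (by rintro rfl; exact h rfl)⟩
  let e : (Σ n, Fin n) → X →L[ℝ] ℝ := fun i => ev (Finsupp.single i 1)
  have e1 : ∀ i j, e i (x j) = if i = j then 1 else 0 := fun i j => by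
    rw [h1, Finsupp.single_apply]
  have x1 : ∀ i, ‖x i‖ ≤ 1 := fun i => (h3 _ _ zero_le_one).2 fun w hw => by
    rw [h1]
    exact hw.1 i
  let g : (Σ n, Fin n → Bool) → X →L[ℝ] ℝ := fun j => ∑ i, sg (j.2 i) • e ⟨j.1, i⟩
  have g3 : ∀ n s i, g ⟨n, s⟩ (x ⟨n, i⟩) = sg (s i) := fun n s i => by simp [g, e1]
  have g4 : ∀ n s m i, n ≠ m → g ⟨n, s⟩ (x ⟨m, i⟩) = 0 := fun n s m i h => by simp [g, e1, h]
  have g1 : ∀ j, ‖g j‖ ≤ 1 := fun ⟨n, s⟩ => ContinuousLinearMap.opNorm_le_bound _ zero_le_one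
    fun v => by
      have e : g ⟨n, s⟩ = ev (∑ i, sg (s i) • Finsupp.single ⟨n, i⟩ 1) := by
        simp only [g, e, map_sum, map_smul]
      rw [one_mul, e]
      refine (h3 v _ (norm_nonneg v)).1 le_rfl _ ⟨fun ⟨m, i⟩ => ?_, n, fun ⟨m, i⟩ h => ?_⟩
      · rw [← h1, ← e]
        rcases eq_or_ne n m with rfl | h
        · rw [g3]
          cases s i <;> simp [sg]
        · simp [g4 _ _ _ _ h]
      · rw [← h1, ← e, g4 _ _ _ _ (Ne.symm h)]
  have sp : TopologicalSpace.SeparableSpace X := TopologicalSpace.isSeparable_univ_iff.1 (by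
    rw [← h2.closure_eq]
    exact (countable_range x).isSeparable.span.closure)
  refine ⟨X, _, _, ‹_›, sp, fun h => ?_, ⟨noniso x x1 e (fun i => by simp [e1]) fun n s => g1 ⟨n, s⟩⟩,
    fun Z _ _ _ ι => sel ι x h2 (fun f N => ?_) g g1 (fun v => ?_) g3 g4⟩
  · haveI : Infinite (Σ n, Fin n) := .of_injective (fun n => ⟨n + 1, 0⟩) fun a b h => by
      simpa using congrArg Sigma.fst h
    exact Module.Finite.not_linearIndependent_of_infinite x
      (.of_pairwise_dual_eq_zero_one x (fun i => (e i : X →ₗ[ℝ] ℝ))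
        (fun i j h => by simp [e1, h]) fun i => by simp [e1])
  · have : ∀ n, ∃ y : X, ‖fun i : Fin n => f (x ⟨n, i⟩)‖ ≤ f y ∧ ∀ w : (Σ n, Fin n) →₀ ℝ,
        (∀ i, |w i| ≤ 1) → |ev w y| ≤ 1 ∧ ((∀ i, w ⟨n, i⟩ = 0) → ev w y = 0) := fun n => by
      rcases n.eq_zero_or_pos with rfl | h
      · exact ⟨0, by simp [Subsingleton.elim (fun i : Fin 0 => f (x ⟨0, i⟩)) 0], by simp⟩
      · haveI : Nonempty (Fin n) := ⟨⟨0, h⟩⟩
        obtain ⟨i, hi⟩ := Finite.exists_max fun i : Fin n => |f (x ⟨n, i⟩)|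
        refine ⟨(SignType.sign (f (x ⟨n, i⟩)) : ℝ) • x ⟨n, i⟩, ?_, fun w hw => ⟨?_, fun h => ?_⟩⟩
        · rw [map_smul, smul_eq_mul, sign_mul_self]
          exact (pi_norm_le_iff_of_nonneg (abs_nonneg _)).2 hi
        · rw [map_smul, smul_eq_mul, h1, abs_mul]
          refine mul_le_one₀ ?_ (abs_nonneg _) (hw _)
          rcases lt_trichotomy (f (x ⟨n, i⟩)) 0 with h | h | h <;> simp [h]
        · simp [h1, h]
    choose y y1 y2 using this
    refine (Finset.sum_le_sum fun n _ => y1 n).trans ?_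
    rw [← map_sum]
    refine (le_abs_self _).trans ((f.le_opNorm _).trans (mul_le_of_le_one_right (norm_nonneg _)
      ((h3 _ _ zero_le_one).2 fun w ⟨hw, n, hn⟩ => ?_)))
    rw [map_sum, Finset.sum_eq_ite n fun m _ h => (y2 m w hw).2 fun i => hn _ h]
    split_ifs
    · exact (y2 n w hw).1
    · simp
  · refine Metric.tendsto_nhds.2 fun ε hε => ?_
    obtain ⟨u, hu, h⟩ := Metric.mem_closure_iff.1 (h2 v) ε hε
    obtain ⟨c, rfl⟩ := Finsupp.mem_span_range_iff_exists_finsupp.1 hu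
    refine eventually_comap.2 ((eventually_gt_atTop (c.support.sup fun i => i.1)).mono ?_)
    rintro _ hn ⟨n, s⟩ rfl
    have := (g ⟨n, s⟩).le_opNorm (v - c.sum fun i a => a • x i)
    rw [map_sub, Finsupp.sum, map_sum, Finset.sum_eq_zero fun ⟨m, i⟩ hi => by
      rw [map_smul, g4 _ _ _ _ ((Finset.le_sup (f := fun i => i.1) hi).trans_lt hn).ne', smul_zero],
      ← dist_eq_norm, ← dist_eq_norm] at this
    exact this.trans_lt ((mul_le_of_le_one_left dist_nonneg (g1 _)).trans_lt h)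

end Pool.Agent.H.MP_35c8d5
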